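import Pool.Agent.W394.BQN.Stm

set_option autoImplicit false

namespace Pool.Agent.W349.BQN

open Pool.Agent.W394.BQN

/-- the row `(a, b)` can be transformed into `(1, 0)` -/
def Red {R : Type} [CommRing R] (a b : R) : Prop :=
  ∃ M ∈ E2 R, a * M 0 0 + b * M 1 0 = 1 ∧ a * M 0 1 + b * M 1 1 = 0

theorem red_left {R : Type} [CommRing R] (a b c : R) (h : Red (a + b * c) b) : Red a b := by
  obtain ⟨M, hM, h1, h2⟩ := h
  refine ⟨!![1, 0; c, 1] * M, Submonoid.mul_mem _ (Submonoid.subset_closure (Or.inr ⟨c, rfl⟩)) hM,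
    ?_, ?_⟩
  · have e1 : (!![1, 0; c, 1] * M) 0 0 = M 0 0 := by
      rw [Matrix.mul_apply, Fin.sum_univ_two]
      simp
    have e2 : (!![1, 0; c, 1] * M) 1 0 = c * M 0 0 + M 1 0 := by
      rw [Matrix.mul_apply, Fin.sum_univ_two]
      simp
    rw [e1, e2, ← h1]
    ring
  · have e1 : (!![1, 0; c, 1] * M) 0 1 = M 0 1 := by
      rw [Matrix.mul_apply, Fin.sum_univ_two]
      simp
    have e2 : (!![1, 0; c, 1] * M) 1 1 = c * M 0 1 + M 1 1 := by
      rw [Matrix.mul_apply, Fin.sum_univ_two]
      simp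
    rw [e1, e2, ← h2]
    ring

theorem red_right {R : Type} [CommRing R] (a b c : R) (h : Red a (b + a * c)) : Red a b := by
  obtain ⟨M, hM, h1, h2⟩ := h
  refine ⟨!![1, c; 0, 1] * M, Submonoid.mul_mem _ (Submonoid.subset_closure (Or.inl ⟨c, rfl⟩)) hM,
    ?_, ?_⟩
  · have e1 : (!![1, c; 0, 1] * M) 0 0 = M 0 0 + c * M 1 0 := by
      rw [Matrix.mul_apply, Fin.sum_univ_two]
      simp
    have e2 : (!![1, c; 0, 1] * M) 1 0 = M 1 0 := by
      rw [Matrix.mul_apply, Fin.sum_univ_two]
      simp
    rw [e1, e2, ← h1]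
    ring
  · have e1 : (!![1, c; 0, 1] * M) 0 1 = M 0 1 + c * M 1 1 := by
      rw [Matrix.mul_apply, Fin.sum_univ_two]
      simp
    have e2 : (!![1, c; 0, 1] * M) 1 1 = M 1 1 := by
      rw [Matrix.mul_apply, Fin.sum_univ_two]
      simp
    rw [e1, e2, ← h2]
    ring

theorem red_one {R : Type} [CommRing R] : Red (1 : R) 0 :=
  ⟨1, Submonoid.one_mem _, by simp, by simp⟩

theorem rot1 {R : Type} [CommRing R] (a s : R) (h : Red s (-a)) : Red a s := by
  apply red_left a s 1
  apply red_right (a + s * 1) s (-1)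
  apply red_left (a + s * 1) (s + (a + s * 1) * (-1)) 1
  have e1 : a + s * 1 + (s + (a + s * 1) * (-1)) * 1 = s := by ring
  have e2 : s + (a + s * 1) * (-1) = -a := by ring
  rw [e1, e2]
  exact h

theorem rot2 {R : Type} [CommRing R] (a s : R) (h : Red (-s) a) : Red a s := by
  apply red_left a s (-1)
  apply red_right (a + s * (-1)) s 1
  apply red_left (a + s * (-1)) (s + (a + s * (-1)) * 1) (-1)
  have e1 : a + s * (-1) + (s + (a + s * (-1)) * 1) * (-1) = -s := by ring
  have e2 : s + (a + s * (-1)) * 1 = a := by ring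
  rw [e1, e2]
  exact h

theorem red_unit {R : Type} [CommRing R] (x y : R) (h : x * y = 1) : Red 0 x := by
  apply red_left 0 x y
  have e1 : 0 + x * y = 1 := by rw [h, zero_add]
  rw [e1]
  apply red_right 1 x (-x)
  have e2 : x + 1 * (-x) = 0 := by ring
  rw [e2]
  exact red_one

theorem t_EUC : S_EUC := by
  intro R _ a b
  suffices h : IsCoprime a b → Red a b ∧ Red a (-b) from fun hc => (h hc).1
  classical
  refine EuclideanDomain.GCD.induction (P := fun a b => IsCoprime a b → Red a b ∧ Red a (-b))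
    a b ?_ ?_
  · intro x hx
    obtain ⟨u, v, huv⟩ := hx
    have h1 : x * v = 1 := by rw [mul_zero, zero_add] at huv; rw [mul_comm]; exact huv
    refine ⟨red_unit x v h1, red_unit (-x) (-v) ?_⟩
    rw [neg_mul_neg]
    exact h1
  · intro a b _ ih hab
    have hdm : a * (b / a) + b % a = b := EuclideanDomain.div_add_mod b a
    have hc : IsCoprime (b % a) a := by
      obtain ⟨u, v, huv⟩ := hab
      refine ⟨v, u + v * (b / a), ?_⟩
      rw [← huv]
      linear_combination v * hdm
    obtain ⟨h1, h2⟩ := ih hc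
    constructor
    · apply red_right a b (-(b / a))
      have e1 : b + a * (-(b / a)) = b % a := by linear_combination (-1 : R) * hdm
      rw [e1]
      exact rot1 a (b % a) h2
    · apply red_right a (-b) (b / a)
      have e1 : -b + a * (b / a) = -(b % a) := by linear_combination hdm
      rw [e1]
      apply rot2 a (-(b % a))
      rw [neg_neg]
      exact h1

end Pool.Agent.W349.BQN
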